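import Mathlib
import Pool.Agent.X161.CN.Base

set_option autoImplicit false

/-!
# Non-evasive balls that are not locally constructible, in all dimensions at least four

The definitions `IsCx`, `realization`, `IsBall`, `IsFacet`, `AtMostTwo`, `SameFace`, `NonEvasive`
are in `Pool.Agent.H933R3.Defs`, the definitions `TreeStage`, `GlueStage`, `IsTreeLC` are in
`Pool.Agent.Y364.E3.Tree`.  The examples are the iterated cones over a 3-ball with 12 vertices and
38 tetrahedra that has a knotted spanning edge.
-/

namespace Pool.Agent.Results.MP_9638d9_co.NonEvasiveNotLC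

open Pool.Agent.H933R3 Pool.Agent.Y364.E3

/-- In every dimension `d ≥ 4` there is a non-evasive triangulated `d`-ball, with at most `d + 9`
vertices, that is not locally constructible. -/
theorem result : ∀ d : ℕ, 4 ≤ d → ∃ K : Finset (Finset (Fin (d + 9))),
    IsCx K ∧ IsBall d K ∧ NonEvasive K ∧ ¬ IsTreeLC d K := by
  intro d hd
  obtain ⟨k, rfl⟩ := Nat.exists_eq_add_of_le (show 3 ≤ d by omega)
  have h : 3 + k + 9 = 12 + k := by omega
  rw [h]
  obtain ⟨K, h1, h2, h3, h4⟩ := Pool.Agent.X161.CN.iterated k
  exact ⟨K, h1, h2, h3 (by omega), h4⟩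

end Pool.Agent.Results.MP_9638d9_co.NonEvasiveNotLC
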